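import Pool.Agent.LibSC93.S7
import Pool.Agent.LibSC93.T6
import Pool.Agent.LibLG5.FIN
import Pool.Agent.LibGP53.P1
import Pool.Agent.LibPL63.UFin
import Pool.Agent.LibPL63.W3
import Pool.Agent.LibPL63.BV
import Pool.Agent.LibGap5.Cor
import Pool.Agent.LibGL22T.Gen
import Pool.Agent.LibGL22T.Fin
import Pool.Agent.LibBW4.Main
import Pool.Agent.LibFB63.Ic
import Pool.Agent.LibFB63.Ic2
import Pool.Agent.LibFB63.F

/-! Laws for prime gaps and for primes in windows of length `L log n` which hold for a positive proportion of all `n`: large gaps, prescribed numbers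
of primes, prescribed places. -/

open Finset Filter

namespace Pool.Agent.Results.MP_ff81b6_nt.GapLaws

open scoped Classical in
/-- (1) For all `l > 0` a positive proportion of the gaps between consecutive primes is at least `l` times the average (`l log p`).
(2) For all `l > 0` and all `m` a positive proportion of the `n ≤ x` has exactly `m` primes in `(n, n + l log n]`.
(3) For every `m` there is `k` such that for all `0 ≤ t 0 < … < t (k-1) < L` and `ε > 0` there is `c > 0` with: for all large `x` at least `c x`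
of the `n ≤ x` have the property that the primes in `(n, n + L log n]` are exactly the numbers `f i`, `i ∈ S`, for a set `S` of at least `m` indices
and an increasing `f` with `t i log n < f i - n < (t i + ε) log n`.
(4) There is an absolute constant `θ > 1/4` such that for all `b, m ≥ 1` with `m - 1 < θ b` (so `b = 4 (m - 1)` is allowed for `m ≥ 2`), any `b` places `0 ≤ t 0 < t 1 < … < L` and `ε > 0`:
for at least `c x` of the `n ≤ x` all primes in `(n, n + L log n]` lie in the intervals `(n + t i log n, n + (t i + ε) log n)`, and at least `m` of these intervals contain a prime. -/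
theorem result :
    (∀ l : ℝ, 0 < l → ∃ c : ℝ, 0 < c ∧ ∃ N₀ : ℕ, ∀ N : ℕ, N₀ ≤ N →
      c * N ≤ (((range N).filter fun k : ℕ => l * Real.log (Nat.nth Nat.Prime k) ≤
        (Nat.nth Nat.Prime (k + 1) : ℝ) - Nat.nth Nat.Prime k).card : ℝ)) ∧
    (∀ l : ℝ, 0 < l → ∀ m : ℕ, ∃ c : ℝ, 0 < c ∧ ∃ x₀ : ℕ, ∀ x : ℕ, x₀ ≤ x →
      c * x ≤ (((Icc 1 x).filter fun n : ℕ => Nat.primeCounting ⌊(n : ℝ) + l * Real.log n⌋₊ -
        Nat.primeCounting n = m).card : ℝ)) ∧
    (∀ m : ℕ, ∃ k : ℕ, ∀ (t : Fin k → ℝ) (ε L : ℝ), StrictMono t → (∀ i, 0 ≤ t i ∧ t i < L) → 0 < ε →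
      ∃ c : ℝ, 0 < c ∧ ∃ x₀ : ℕ, ∀ x : ℕ, x₀ ≤ x → c * x ≤ (((Icc 1 x).filter fun n : ℕ =>
        ∃ (S : Finset (Fin k)) (f : Fin k → ℕ), m ≤ S.card ∧ StrictMonoOn f S ∧
          (Ioc n ⌊(n : ℝ) + L * Real.log n⌋₊).filter Nat.Prime = S.image f ∧
          ∀ i ∈ S, t i * Real.log n < (f i : ℝ) - n ∧ (f i : ℝ) - n < (t i + ε) * Real.log n).card : ℝ)) ∧
    (∃ θ : ℝ, 1 / 4 < θ ∧ ∀ b m : ℕ, 1 ≤ b → 1 ≤ m → (m : ℝ) - 1 < θ * b →
      ∀ (t : Fin b → ℝ) (ε L : ℝ), StrictMono t → (∀ i, 0 ≤ t i ∧ t i < L) → 0 < ε →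
      ∃ c : ℝ, 0 < c ∧ ∃ x₀ : ℕ, ∀ x : ℕ, x₀ ≤ x → c * x ≤ (((Icc 1 x).filter fun n : ℕ =>
        (∀ p ∈ (Ioc n ⌊(n : ℝ) + L * Real.log n⌋₊).filter Nat.Prime,
          ∃ i, t i * Real.log n < (p : ℝ) - n ∧ (p : ℝ) - n < (t i + ε) * Real.log n) ∧
        m ≤ (univ.filter fun i => ∃ p ∈ (Ioc n ⌊(n : ℝ) + L * Real.log n⌋₊).filter Nat.Prime,
          t i * Real.log n < (p : ℝ) - n ∧ (p : ℝ) - n < (t i + ε) * Real.log n).card).card : ℝ)) := by
  obtain ⟨θ, hθ, H0⟩ := LibFB63.bc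
  have H := H0 Pool.Agent.LibBW4.bv_primes
  have hlaw : ∀ (m : ℕ) (l : ℝ), 0 < l → ∃ c : ℝ, 0 < c ∧ ∃ x₀ : ℕ, ∀ x : ℕ, x₀ ≤ x →
      c * x ≤ (((Icc 1 x).filter fun n : ℕ => Nat.primeCounting ⌊(n : ℝ) + l * Real.log n⌋₊ -
        Nat.primeCounting n = m).card : ℝ) :=
    LibPL63.law (fun l hl e he he1 => LibLG5.main l e hl he he1) GP.pairs
      (LibPL63.mtg LibPL63.bv)
  refine ⟨fun l hl => ?_, fun l hl m => ?_, fun m => ?_, ⟨θ, hθ, fun b m hb hm hbm t ε L ht htL hε => ?_⟩⟩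
  · simpa only [Finset.filter_congr_decidable] using
      LibGap5.gaps_of_windows (fun l hl => hlaw 1 l hl) l hl
  · simpa only [Finset.filter_congr_decidable] using hlaw m l hl
  · obtain ⟨k, _, hk⟩ := Pool.Agent.LibSC93.final m (Pool.Agent.LibSC93.scg Pool.Agent.LibPL63.bv m)
    refine ⟨k, fun t ε L ht htL hε => ?_⟩
    obtain ⟨c, hc, h⟩ := hk t ε L ht htL hε
    obtain ⟨x₀, hx⟩ := Filter.eventually_atTop.1 h
    refine ⟨c, hc, x₀, fun x hx0 => (hx x hx0).trans ?_⟩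
    refine Nat.cast_le.2 (Finset.card_le_card fun n hn => ?_)
    rw [Finset.mem_filter] at hn ⊢
    exact hn
  · obtain ⟨c, hc, h⟩ := LibGL22T.places hb (H b m hb hm hbm) t ε L ht htL hε
    obtain ⟨x₀, hx⟩ := Filter.eventually_atTop.1 h
    refine ⟨c, hc, x₀, fun x hx0 => (hx x hx0).trans (Nat.cast_le.2 (Finset.card_le_card fun n hn => ?_))⟩
    rw [Finset.mem_filter] at hn ⊢
    exact hn

end Pool.Agent.Results.MP_ff81b6_nt.GapLaws
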