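import Pool.Agent.LibGL22T.Gen
import Pool.Agent.LibGL22T.Fin
import Pool.Agent.LibGL22.L1
import Pool.Agent.LibBW4.Main
import Pool.Agent.LibFB63.Ic
import Pool.Agent.LibFB63.Ic2
import Pool.Agent.LibLP64.Fin
import Pool.Agent.LibKN93.I2
import Pool.Agent.LibFB63.F

/-! The limit points of the normalized gaps between consecutive primes have lower density at least `1/2`, in all long windows; the same for the
values of the normalized gaps which are attained with positive proportion, along any sequence. -/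

open Finset Filter Topology

namespace Pool.Agent.Results.MP_ff81b6_nt.LimitPoints

/-- the values which are approached with positive proportion along a sequence are limit points -/
theorem mapClusterPt_of_mem_LSet {φ : ℕ → ℕ} (hφ : Tendsto φ atTop atTop) {τ : ℝ} (h : τ ∈ LibGL22T.LSet φ) :
    MapClusterPt τ atTop fun n : ℕ =>
      ((Nat.nth Nat.Prime (n + 1) : ℝ) - Nat.nth Nat.Prime n) / Real.log (Nat.nth Nat.Prime n) := by
  rw [mapClusterPt_iff_frequently]
  intro s hs hev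
  obtain ⟨ε, hε, hsub⟩ := Metric.mem_nhds_iff.1 hs
  obtain ⟨c, hc, hfr⟩ := h ε hε
  obtain ⟨n₀, hn₀⟩ := eventually_atTop.1 hev
  have hlog : ∀ n : ℕ, 0 < Real.log (Nat.nth Nat.Prime n) := by
    intro n
    apply Real.log_pos
    have h2 : 2 ≤ Nat.nth Nat.Prime n := (Nat.prime_nth_prime n).two_le
    have : (2 : ℝ) ≤ (Nat.nth Nat.Prime n : ℝ) := by exact_mod_cast h2
    linarith
  have hcount : ∀ N : ℕ, LibGL22T.gc τ ε N ≤ n₀ := by
    intro N
    unfold LibGL22T.gc
    calc _ ≤ (range n₀).card := by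
          refine Finset.card_le_card fun k hk => ?_
          rw [Finset.mem_filter] at hk
          rw [Finset.mem_range]
          by_contra hlt
          rw [not_lt] at hlt
          refine hn₀ k hlt (hsub ?_)
          rw [Metric.mem_ball, Real.dist_eq]
          have h1 := hk.2
          rw [div_sub' (hlog k).ne', abs_div, abs_of_pos (hlog k), div_lt_iff₀ (hlog k), mul_comm (Real.log _) τ]
          exact h1
      _ = n₀ := Finset.card_range n₀
  have hev2 : ∀ᶠ j in atTop, (n₀ : ℝ) < c * φ j := by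
    have h1 : Tendsto (fun j => c * (φ j : ℝ)) atTop atTop :=
      (tendsto_natCast_atTop_atTop.comp hφ).const_mul_atTop hc
    exact h1.eventually_gt_atTop _
  obtain ⟨j, h1, h2⟩ := (hfr.and_eventually hev2).exists
  have h3 : (LibGL22T.gc τ ε (φ j) : ℝ) ≤ n₀ := by exact_mod_cast hcount (φ j)
  linarith

/-- (1) Let `P` be the set of all limit points in `ℝ` of the normalized gaps `(p_{n+1} - p_n) / log p_n` between consecutive primes. For every `ε > 0`
there is `M₀` such that `P ∩ [s, s + M]` has measure at least `(1/2 - ε) M` for all `s ≥ 0` and all `M ≥ M₀`.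
(2) Let `φ → ∞` be any sequence of naturals and `G` the set of the `τ` such that for every `ε > 0`, for some `c > 0` and infinitely many `N` among the `φ j`,
at least `c N` of the first `N` gaps between consecutive primes satisfy `|p' - p - τ log p| < ε log p`. Then `G` is closed and contains an interval `[0, c]`,
`c > 0`; among any four reals two have their difference in the closure `H` of the interior of `G`; `H ∩ [0, X]` has measure at least `X / 3` for every `X`;
`H ∩ [s, s + M]` has measure at least `(1/2 - ε) M` for all `s ≥ 0` and `M ≥ M₀(ε)`; and for some `κ > 0` and `C` every interval `[s, s + C]`, `s ≥ 0`,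
contains a `y` with `[y, y + κ]` inside `G`. -/
theorem result :
    (∀ ε : ℝ, 0 < ε → ∃ M₀ : ℝ, ∀ s : ℝ, 0 ≤ s → ∀ M : ℝ, M₀ ≤ M →
      ENNReal.ofReal ((1 / 2 - ε) * M) ≤ MeasureTheory.volume ({τ : ℝ | MapClusterPt τ atTop fun n : ℕ =>
        ((Nat.nth Nat.Prime (n + 1) : ℝ) - Nat.nth Nat.Prime n) / Real.log (Nat.nth Nat.Prime n)} ∩
          Set.Icc s (s + M))) ∧
    (∀ φ : ℕ → ℕ, Tendsto φ atTop atTop → ∀ G : Set ℝ,
      (∀ τ : ℝ, τ ∈ G ↔ ∀ ε : ℝ, 0 < ε → ∃ c : ℝ, 0 < c ∧ ∃ᶠ j in atTop,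
        c * φ j ≤ (((range (φ j)).filter fun k : ℕ => |(Nat.nth Nat.Prime (k + 1) : ℝ) - Nat.nth Nat.Prime k -
          τ * Real.log (Nat.nth Nat.Prime k)| < ε * Real.log (Nat.nth Nat.Prime k)).card : ℝ)) →
      IsClosed G ∧ (∃ c : ℝ, 0 < c ∧ Set.Icc 0 c ⊆ G) ∧
      (∀ t : Fin 4 → ℝ, StrictMono t → ∃ i j, i < j ∧ t j - t i ∈ closure (interior G)) ∧
      (∀ X : ℝ, ENNReal.ofReal (X / 3) ≤ MeasureTheory.volume (closure (interior G) ∩ Set.Icc 0 X)) ∧
      (∀ ε : ℝ, 0 < ε → ∃ M₀ : ℝ, ∀ s : ℝ, 0 ≤ s → ∀ M : ℝ, M₀ ≤ M →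
        ENNReal.ofReal ((1 / 2 - ε) * M) ≤ MeasureTheory.volume (closure (interior G) ∩ Set.Icc s (s + M))) ∧
      ∃ κ C : ℝ, 0 < κ ∧ ∀ s : ℝ, 0 ≤ s → ∃ y, s ≤ y ∧ y ≤ s + C ∧ Set.Icc y (y + κ) ⊆ G) := by
  have main : ∀ φ : ℕ → ℕ, Tendsto φ atTop atTop → ∀ G : Set ℝ,
      (∀ τ : ℝ, τ ∈ G ↔ ∀ ε : ℝ, 0 < ε → ∃ c : ℝ, 0 < c ∧ ∃ᶠ j in atTop,
        c * φ j ≤ (((range (φ j)).filter fun k : ℕ => |(Nat.nth Nat.Prime (k + 1) : ℝ) - Nat.nth Nat.Prime k -
          τ * Real.log (Nat.nth Nat.Prime k)| < ε * Real.log (Nat.nth Nat.Prime k)).card : ℝ)) →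
      IsClosed G ∧ (∃ c : ℝ, 0 < c ∧ Set.Icc 0 c ⊆ G) ∧
      (∀ t : Fin 4 → ℝ, StrictMono t → ∃ i j, i < j ∧ t j - t i ∈ closure (interior G)) ∧
      (∀ X : ℝ, ENNReal.ofReal (X / 3) ≤ MeasureTheory.volume (closure (interior G) ∩ Set.Icc 0 X)) ∧
      (∀ ε : ℝ, 0 < ε → ∃ M₀ : ℝ, ∀ s : ℝ, 0 ≤ s → ∀ M : ℝ, M₀ ≤ M →
        ENNReal.ofReal ((1 / 2 - ε) * M) ≤ MeasureTheory.volume (closure (interior G) ∩ Set.Icc s (s + M))) ∧
      ∃ κ C : ℝ, 0 < κ ∧ ∀ s : ℝ, 0 ≤ s → ∃ y, s ≤ y ∧ y ≤ s + C ∧ Set.Icc y (y + κ) ⊆ G := by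
    intro φ hφ G hG
    obtain ⟨θ, hθ, H0⟩ := LibFB63.bc
    have H := H0 Pool.Agent.LibBW4.bv_primes
    have H42 : LibGL22T.BCb 4 2 := H 4 2 (by norm_num) (by norm_num) (by push_cast; linarith)
    have hGL : G = LibGL22T.LSet φ := by
      ext τ
      refine (hG τ).trans (forall_congr' fun ε => imp_congr_right fun _ => exists_congr fun c => and_congr_right fun _ => ?_)
      unfold LibGL22T.gc
      exact Filter.frequently_congr (Filter.Eventually.of_forall fun j => Iff.rfl)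
    rw [hGL]
    have key0 : ∀ t : Fin 4 → ℝ, StrictMono t → ∃ i j, i < j ∧ t j - t i ∈ LibGL22T.LSet φ :=
      fun t ht => LibGL22T.diff_gen (by norm_num) H42 φ hφ t ht
    have hcl := LibGL22T.closed_LSet φ
    have key := LibFB63.p4_interior hcl key0
    have hT : IsClosed (closure (interior (LibGL22T.LSet φ))) := isClosed_closure
    have hsub : closure (interior (LibGL22T.LSet φ)) ⊆ LibGL22T.LSet φ :=
      (closure_mono interior_subset).trans hcl.closure_subset
    have fin4 : ∀ s : Finset ℝ, s.card = 3 + 1 →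
        ∃ a ∈ s, ∃ b ∈ s, a < b ∧ b - a ∈ closure (interior (LibGL22T.LSet φ)) := by
      intro s hs
      obtain ⟨i, j, hij, hL⟩ := key (s.orderEmbOfFin hs) (s.orderEmbOfFin hs).strictMono
      exact ⟨_, s.orderEmbOfFin_mem hs i, _, s.orderEmbOfFin_mem hs j, (s.orderEmbOfFin hs).strictMono hij, hL⟩
    refine ⟨hcl, ?_, key, fun X => ?_, LibLP64.main _ hT key, ?_⟩
    · obtain ⟨c, hc, h⟩ := LibFB63.small_interval hT fin4
      exact ⟨c, hc, h.trans hsub⟩
    · have h4 := LibGL22.vol_ge_div (k := 3) (by norm_num) fin4 X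
      rw [ENNReal.ofReal_div_of_pos (by norm_num)]
      refine ENNReal.div_le_of_le_mul' ?_
      refine h4.trans (le_of_eq ?_)
      norm_num
    · obtain ⟨κ, hκ, C, hC⟩ := LibKN93.unif_intervals _ hcl key0
      exact ⟨κ, C, hκ, hC⟩
  refine ⟨fun ε hε => ?_, main⟩
  have hid : Tendsto (fun j : ℕ => j) atTop atTop := tendsto_id
  obtain ⟨hcl, -, -, -, h, -⟩ := main (fun j => j) hid (LibGL22T.LSet fun j => j) (fun τ => by
    refine forall_congr' fun ε => imp_congr_right fun _ => exists_congr fun c => and_congr_right fun _ => ?_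
    unfold LibGL22T.gc
    exact Filter.frequently_congr (Filter.Eventually.of_forall fun j => Iff.rfl))
  obtain ⟨M₀, hM⟩ := h ε hε
  refine ⟨M₀, fun s hs M hM0 => (hM s hs M hM0).trans (MeasureTheory.measure_mono ?_)⟩
  refine Set.inter_subset_inter_left _ fun τ hτ => ?_
  exact mapClusterPt_of_mem_LSet hid (hcl.closure_subset (closure_mono interior_subset hτ))

end Pool.Agent.Results.MP_ff81b6_nt.LimitPoints
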