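import Pool.Agent.LibRC95.Ve

/-! Vectors of gaps of record size between consecutive primes, isolated clusters of primes, and the general theorem behind them: at least `m` primes at `K`
prescribed places of a window of length `c R(X)` without any other prime. -/

open Finset

namespace Pool.Agent.Results.MP_ff81b6_nt.RecordChains

/-- `R(X) = log X (loglog X)^2 loglogloglog X / (logloglog X)^2`. -/
noncomputable def R (X : ℝ) : ℝ :=
  Real.log X * (Real.log (Real.log X)) ^ 2 * Real.log (Real.log (Real.log (Real.log X))) /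
    (Real.log (Real.log (Real.log X))) ^ 2

open scoped Classical in
/-- `p_i = Nat.nth Nat.Prime i` is the `i`-th prime.

(1) For all `k` and `Y` there is `c > 0` such that for all `q ≥ 1`, all large `X` and all `a` prime to `q` there are at least `c (R(X)/q)^k` vectors
`(g_1, ..., g_k)` in `[c R(X), R(X)/c]^k` with `g_j ≥ Y g_i` for all `i < j`, and as many with `g_i ≥ Y g_j` for all `i < j`, each of which is the vector of the
`k` successive gaps of at least `X^(9/10)` different strings of `k + 1` consecutive primes in `[X^(1/2), 2X]`, all `≡ a (mod q)`.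

(2) For every `m` there is `c > 0` such that for all `q ≥ 1` there is `B` such that for all large `X` and all `a` prime to `q` there are consecutive primes
`p_i, ..., p_(i+r)` in `[X^(1/2), 2X]`, `r ≥ m`, all `≡ a (mod q)`, in an interval of length `B`, with `p_i - p_(i-1) ≥ c R(X)` and `p_(i+r+1) - p_(i+r) ≥ c R(X)`.

(3) There is `C` such that for all `m ≥ 1` and `K ≥ exp (C m)` there is `c > 0` such that for all `q ≥ 1`, `η > 0`, all large `X`, all `a` and all sets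
`H` of `K` integers in `[0, c R(X)]` with `(a + h, q) = 1` for `h ∈ H` and with a free class modulo every prime not dividing `q`: at least `X^(19/20)`
integers `n ≡ a (mod q)` with `X^(1 - η) ≤ n ≤ X` are such that at least `m` of the `n + h`, `h ∈ H`, are prime and no `n + j`, `0 ≤ j ≤ c R(X)`,
`j ∉ H`, is prime. -/
theorem result :
    (∀ k Y : ℕ, ∃ c : ℝ, 0 < c ∧ ∀ q : ℕ, 1 ≤ q → ∃ X₀ : ℝ, ∀ X : ℝ, X₀ ≤ X → ∀ a : ℕ, a.Coprime q →
      ∃ V V' : Finset (Fin k → ℕ), c * (R X / q) ^ k ≤ V.card ∧ c * (R X / q) ^ k ≤ V'.card ∧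
        (∀ g ∈ V, ∀ i j, i < j → Y * g i ≤ g j) ∧ (∀ g ∈ V', ∀ i j, i < j → Y * g j ≤ g i) ∧
        ∀ g ∈ V ∪ V', (∀ j, c * R X ≤ g j ∧ (g j : ℝ) ≤ R X / c) ∧
          X ^ (9 / 10 : ℝ) ≤ (((range (⌊2 * X⌋₊ + 1)).filter fun i : ℕ =>
            X ^ (1 / 2 : ℝ) ≤ Nat.nth Nat.Prime i ∧ (Nat.nth Nat.Prime (i + k) : ℝ) ≤ 2 * X ∧
            (∀ j ≤ k, Nat.nth Nat.Prime (i + j) ≡ a [MOD q]) ∧
            ∀ j : Fin k, Nat.nth Nat.Prime (i + j + 1) = Nat.nth Nat.Prime (i + j) + g j).card : ℝ)) ∧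
    (∀ m : ℕ, ∃ c : ℝ, 0 < c ∧ ∀ q : ℕ, 1 ≤ q → ∃ B : ℕ, ∃ X₀ : ℝ, ∀ X : ℝ, X₀ ≤ X →
      ∀ a : ℕ, a.Coprime q → ∃ i r : ℕ, 1 ≤ i ∧ m ≤ r ∧ X ^ (1 / 2 : ℝ) ≤ Nat.nth Nat.Prime i ∧
        (Nat.nth Nat.Prime (i + r) : ℝ) ≤ 2 * X ∧
        Nat.nth Nat.Prime (i + r) ≤ Nat.nth Nat.Prime i + B ∧
        (∀ j ≤ r, Nat.nth Nat.Prime (i + j) ≡ a [MOD q]) ∧
        c * R X ≤ (Nat.nth Nat.Prime i : ℝ) - Nat.nth Nat.Prime (i - 1) ∧
        c * R X ≤ (Nat.nth Nat.Prime (i + r + 1) : ℝ) - Nat.nth Nat.Prime (i + r)) ∧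
    ∃ C : ℝ, ∀ m K : ℕ, 1 ≤ m → Real.exp (C * m) ≤ K → ∃ c : ℝ, 0 < c ∧
      ∀ q : ℕ, 1 ≤ q → ∀ η : ℝ, 0 < η → ∃ X₀ : ℝ, ∀ X : ℝ, X₀ ≤ X → ∀ (a : ℕ) (H : Finset ℕ),
      H.card = K → (∀ h ∈ H, (h : ℝ) ≤ c * R X) → (∀ h ∈ H, (a + h).Coprime q) →
      (∀ p : ℕ, p.Prime → ¬ p ∣ q → ∃ r : ℕ, ∀ h ∈ H, ¬ h ≡ r [MOD p]) →
      X ^ (19 / 20 : ℝ) ≤ (((Icc 1 ⌊X⌋₊).filter fun n : ℕ => X ^ (1 - η) ≤ n ∧ n ≡ a [MOD q] ∧
        m ≤ (H.filter fun h => (n + h).Prime).card ∧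
        ∀ j : ℕ, (j : ℝ) ≤ c * R X → j ∉ H → ¬ (n + j).Prime).card : ℝ) := by
  refine ⟨Pool.Agent.LibRC95.vectors, Pool.Agent.LibRC95.cluster, ?_⟩
  obtain ⟨C, hC⟩ := Pool.Agent.LibT63.E5_final 1000 le_rfl Pool.Agent.LibT63.E6_good
  refine ⟨C, fun m K hm hK => ?_⟩
  obtain ⟨c, hc, h⟩ := hC m K hm hK
  refine ⟨c, hc, ?_⟩
  have e : ∀ X : ℝ, c * Real.log X * (Real.log (Real.log X)) ^ 2 *
      Real.log (Real.log (Real.log (Real.log X))) / (Real.log (Real.log (Real.log X))) ^ 2 =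
      c * R X := by
    intro X
    unfold R; ring
  simp only [e] at h
  exact h

end Pool.Agent.Results.MP_ff81b6_nt.RecordChains
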