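import Pool.Agent.LibRG87.F5
import Pool.Agent.LibRG87.Cover

/-! Record gaps between consecutive primes, in all intervals `[X, X + H]`. -/

namespace Pool.Agent.Results.MP_ff81b6_nt.RecordGaps

theorem result :
    ∃ c : ℝ, 0 < c ∧ ∃ H0 : ℝ, ∀ H X : ℝ, H0 ≤ H → H ≤ X → ∃ p q m g : ℕ,
      p.Prime ∧ q.Prime ∧ (∀ r, p < r → r < q → ¬ r.Prime) ∧ p ≤ m ∧ m + g < q ∧
      X ≤ m ∧ (m : ℝ) + g ≤ X + H ∧
      c * Real.log H * (Real.log (Real.log H)) ^ 2 * Real.log (Real.log (Real.log (Real.log H))) /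
        (Real.log (Real.log (Real.log H))) ^ 2 ≤ g :=
  Pool.Agent.LibRG87.record_uniform Pool.Agent.LibRG87.cover

end Pool.Agent.Results.MP_ff81b6_nt.RecordGaps
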